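import Pool.Agent.K48I.Virt

/-!
# The configurations: `m` chains of `L` simple points over two points of multiplicity `m`
-/

set_option autoImplicit false

namespace Pool.Agent.K48I

open MvPolynomial

/-- The directions of the points of the chains. -/
noncomputable def word (x : ℕ × ℕ) : List Direction :=
  List.replicate x.2 (some 0) ++ [some (x.1 : ℂ), some 0]

theorem word_length (x : ℕ × ℕ) : (word x).length = x.2 + 2 := by simp [word]

theorem word_succ (i j : ℕ) : word (i, j + 1) = some 0 :: word (i, j) := by
  simp [word, List.replicate_succ]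

theorem word_zero (i : ℕ) : word (i, 0) = [some (i : ℂ), some 0] := by simp [word]

theorem word_inj {x y : ℕ × ℕ} (h : word x = word y) : x = y := by
  have h1 := congrArg List.length h
  rw [word_length, word_length] at h1
  have h2 : x.2 = y.2 := by omega
  rcases x with ⟨i, j⟩
  rcases y with ⟨i', j'⟩
  simp only at h2
  subst h2
  simp only [word] at h
  have h3 := List.append_cancel_left h
  simp only [List.cons.injEq, Option.some.injEq, Nat.cast_inj, and_true] at h3
  rw [h3]

/-- The base point. -/
noncomputable def base : PlanePoint := .affine 0 0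

open Classical in
/-- The configuration with `m` chains of length `L`. -/
noncomputable def conf (m L : ℕ) : Configuration where
  points := insert ⟨base, []⟩ (insert ⟨base, [some 0]⟩
    ((Finset.range m ×ˢ Finset.range L).image fun x => ⟨base, word x⟩))
  closed := by
    intro P a w h
    simp only [Finset.mem_insert, Finset.mem_image, Finset.mem_product, Finset.mem_range,
      Point.mk.injEq, List.cons_ne_nil, and_false, false_or] at h ⊢
    rcases h with ⟨rfl, h⟩ | ⟨⟨i, j⟩, ⟨hi, hj⟩, rfl, h⟩
    · rw [List.cons.injEq] at h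
      exact Or.inl ⟨rfl, h.2⟩
    · rcases j with _ | j
      · rw [word_zero, List.cons.injEq] at h
        exact Or.inr (Or.inl ⟨rfl, h.2.symm⟩)
      · rw [word_succ, List.cons.injEq] at h
        simp only at hi hj
        exact Or.inr (Or.inr ⟨(i, j), ⟨hi, by simp only; omega⟩, rfl, h.2⟩)
  mult := fun p => if p.dirs.length ≤ 1 then m else 1

theorem mem_conf {m L : ℕ} {p : Point} : p ∈ (conf m L).points ↔
    p = ⟨base, []⟩ ∨ p = ⟨base, [some 0]⟩ ∨ ∃ i j, i < m ∧ j < L ∧ p = ⟨base, word (i, j)⟩ := by
  classical
  simp only [conf, Finset.mem_insert, Finset.mem_image, Finset.mem_product, Finset.mem_range,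
    Prod.exists]
  refine or_congr_right (or_congr_right ⟨?_, ?_⟩)
  · rintro ⟨i, j, ⟨hi, hj⟩, rfl⟩
    exact ⟨i, j, hi, hj, rfl⟩
  · rintro ⟨i, j, hi, hj, rfl⟩
    exact ⟨i, j, ⟨hi, hj⟩, rfl⟩

theorem sum_conf {α : Type*} [AddCommMonoid α] (m L : ℕ) (f : Point → α) :
    ∑ p ∈ (conf m L).points, f p = f ⟨base, []⟩ + (f ⟨base, [some 0]⟩ +
      ∑ x ∈ Finset.range m ×ˢ Finset.range L, f ⟨base, word x⟩) := by
  classical
  simp only [conf]
  rw [Finset.sum_insert, Finset.sum_insert, Finset.sum_image]
  · intro x _ y _ h
    exact word_inj (Point.mk.inj h).2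
  · simp only [Finset.mem_image, Point.mk.injEq, true_and, not_exists, not_and]
    intro x _ h
    have := congrArg List.length h
    rw [word_length] at this
    simp at this
  · simp only [Finset.mem_insert, Finset.mem_image, Point.mk.injEq, true_and, not_or, not_exists,
      not_and]
    refine ⟨by simp, ?_⟩
    intro x _ h
    have := congrArg List.length h
    rw [word_length] at this
    simp at this

theorem expectedDimension_conf (m L d : ℕ) : expectedDimension (conf m L) d =
    max 0 (((d + 2).choose 2 : ℤ) - (2 * ((m + 1).choose 2 : ℤ) + m * L)) := by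
  rw [expectedDimension, sum_conf]
  have h : ∀ x ∈ Finset.range m ×ˢ Finset.range L,
      ((((conf m L).mult ⟨base, word x⟩ + 1).choose 2 : ℕ) : ℤ) = 1 := by
    intro x _
    have : ¬ (word x).length ≤ 1 := by rw [word_length]; omega
    simp [conf, this]
  rw [Finset.sum_congr rfl h]
  congr 2
  simp [conf]
  ring

theorem SameType.expectedDimension_eq {D D' : Configuration} (h : SameType D D') (d : ℕ) :
    expectedDimension D' d = expectedDimension D d := by
  obtain ⟨e, he⟩ := h
  rw [expectedDimension, expectedDimension]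
  congr 2
  rw [← Finset.sum_coe_sort D.points, ← Finset.sum_coe_sort D'.points,
    ← Equiv.sum_comp e (fun p : D'.points => ((D'.mult p + 1).choose 2 : ℤ))]
  exact Finset.sum_congr rfl fun p _ => by rw [(he p).1]

/-- All the directions of the points of the configuration are finite. -/
theorem conf_finite {m L : ℕ} {p : Point} (hp : p ∈ (conf m L).points) : none ∉ p.dirs := by
  rw [mem_conf] at hp
  rcases hp with rfl | rfl | ⟨i, j, _, _, rfl⟩
  · simp
  · simp
  · simp [word, List.mem_replicate]

theorem proximate_conf {m L : ℕ} {p q : Point} (hq : q ∈ (conf m L).points)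
    (h : Proximate q p) : ∃ a, q = ⟨p.base, a :: p.dirs⟩ := by
  obtain ⟨a, u, rfl, hu⟩ := h
  have hf := conf_finite hq
  simp only [List.mem_append, List.mem_cons, not_or] at hf
  rcases a with _ | c
  · exact absurd rfl hf.2.1
  · refine ⟨some c, ?_⟩
    rcases u with _ | ⟨b, u⟩
    · rfl
    · have h1 : b = none := hu b (List.mem_cons_self ..)
      subst h1
      exact absurd (List.mem_cons_self ..) hf.1

theorem consistent_conf (m L : ℕ) : Consistent (conf m L) := by
  classical
  intro p hp
  rw [mem_conf] at hp
  rcases hp with rfl | rfl | ⟨i, j, hi, hj, rfl⟩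
  · have hsub : (conf m L).points.filter (fun q => Proximate q ⟨base, []⟩) ⊆
        {⟨base, [some 0]⟩} := by
      intro q hq
      rw [Finset.mem_filter] at hq
      obtain ⟨a, rfl⟩ := proximate_conf hq.1 hq.2
      have h1 := mem_conf.1 hq.1
      rw [Finset.mem_singleton]
      rcases h1 with h1 | h1 | ⟨i, j, _, _, h1⟩
      · simp at h1
      · exact h1
      · have := congrArg (fun p : Point => p.dirs.length) h1
        simp [word_length] at this
    refine (Finset.sum_le_sum_of_subset hsub).trans ?_
    simp [conf]
  · have hsub : (conf m L).points.filter (fun q => Proximate q ⟨base, [some 0]⟩) ⊆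
        (Finset.range m).image (fun i => ⟨base, word (i, 0)⟩) := by
      intro q hq
      rw [Finset.mem_filter] at hq
      obtain ⟨a, rfl⟩ := proximate_conf hq.1 hq.2
      have h1 := mem_conf.1 hq.1
      rw [Finset.mem_image]
      rcases h1 with h1 | h1 | ⟨i, j, hi, _, h1⟩
      · simp at h1
      · simp at h1
      · have h2 := congrArg (fun p : Point => p.dirs.length) h1
        simp [word_length] at h2
        subst h2
        exact ⟨i, Finset.mem_range.2 hi, h1.symm⟩
    refine (Finset.sum_le_sum_of_subset hsub).trans ?_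
    refine (Finset.sum_image_le_of_nonneg fun _ _ => Nat.zero_le _).trans ?_
    simp [conf, word_length]
  · have hsub : (conf m L).points.filter (fun q => Proximate q ⟨base, word (i, j)⟩) ⊆
        {⟨base, word (i, j + 1)⟩} := by
      intro q hq
      rw [Finset.mem_filter] at hq
      obtain ⟨a, rfl⟩ := proximate_conf hq.1 hq.2
      have h1 := mem_conf.1 hq.1
      rw [Finset.mem_singleton]
      rcases h1 with h1 | h1 | ⟨i', j', _, _, h1⟩
      · simp at h1
      · simp only [Point.mk.injEq, List.cons.injEq, true_and] at h1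
        have := congrArg List.length h1.2
        rw [word_length] at this
        simp at this
      · rcases j' with _ | j'
        · have := congrArg (fun p : Point => p.dirs.length) h1
          simp [word_length] at this
        · rw [word_succ, Point.mk.injEq, List.cons.injEq] at h1
          rw [word_succ, h1.2.1]
    refine (Finset.sum_le_sum_of_subset hsub).trans ?_
    simp [conf, word_length]

theorem exceeds_conf (m L d : ℕ) (hm : 1 ≤ m) (hd : 2 * m + 1 < d) :
    ExceedsThreeLargest (conf m L) d := by
  classical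
  intro T hT hc
  have h1 : ∑ p ∈ T, (conf m L).mult p =
      (T.filter (fun p => p.dirs.length ≤ 1)).card * m +
        (T.filter (fun p => ¬ p.dirs.length ≤ 1)).card := by
    rw [← Finset.sum_filter_add_sum_filter_not T (fun p => p.dirs.length ≤ 1)]
    congr 1
    · rw [Finset.sum_congr rfl (g := fun _ => m)]
      · rw [Finset.sum_const, smul_eq_mul]
      · intro p hp
        rw [Finset.mem_filter] at hp
        simp [conf, hp.2]
    · rw [Finset.sum_congr rfl (g := fun _ => 1)]
      · rw [Finset.sum_const, smul_eq_mul, mul_one]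
      · intro p hp
        rw [Finset.mem_filter] at hp
        simp [conf, hp.2]
  have h2 : (T.filter (fun p => p.dirs.length ≤ 1)).card ≤ 2 := by
    refine (Finset.card_le_card (t := {⟨base, []⟩, ⟨base, [some 0]⟩}) ?_).trans
      Finset.card_le_two
    intro p hp
    rw [Finset.mem_filter] at hp
    have h3 := mem_conf.1 (hT hp.1)
    simp only [Finset.mem_insert, Finset.mem_singleton]
    rcases h3 with h3 | h3 | ⟨i, j, _, _, h3⟩
    · exact Or.inl h3
    · exact Or.inr h3
    · have h4 := hp.2
      rw [h3, word_length] at h4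
      omega
  have h3 := Finset.card_filter_add_card_filter_not (s := T) (fun p => p.dirs.length ≤ 1)
  rw [h1]
  generalize (T.filter (fun p => p.dirs.length ≤ 1)).card = c at *
  generalize (T.filter (fun p => ¬ p.dirs.length ≤ 1)).card = c' at *
  have : c = 0 ∨ c = 1 ∨ c = 2 := by omega
  rcases this with rfl | rfl | rfl <;> omega

/-- The shape of the configurations of the same type. -/
theorem shape {m L : ℕ} (D : Configuration) (h : SameType (conf m L) D) :
    ∃ (P : PlanePoint) (a : Direction), D.mult ⟨P, []⟩ = m ∧ D.mult ⟨P, [a]⟩ = m ∧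
      ∀ p ∈ D.points, p = ⟨P, []⟩ ∨ p = ⟨P, [a]⟩ ∨
        (D.mult p = 1 ∧ ∃ (w : List Direction) (b : Direction), w.length < L ∧
          p = ⟨P, w ++ [b, a]⟩) := by
  obtain ⟨e, he⟩ := h
  -- the two first points
  have h0 : (⟨base, []⟩ : Point) ∈ (conf m L).points := mem_conf.2 (Or.inl rfl)
  have h1 : (⟨base, [some 0]⟩ : Point) ∈ (conf m L).points := mem_conf.2 (Or.inr (Or.inl rfl))
  obtain ⟨p0, hp0⟩ : ∃ p : (conf m L).points, p = ⟨_, h0⟩ := ⟨_, rfl⟩
  obtain ⟨p1, hp1⟩ : ∃ p : (conf m L).points, p = ⟨_, h1⟩ := ⟨_, rfl⟩
  have hnear : ∀ p q : (conf m L).points, Near (e q) (e p) ↔ Near (q : Point) p :=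
    fun p q => ((he p).2 q).1
  have hn0 : ∀ q : (conf m L).points, Near (q : Point) p0 := by
    intro q
    rw [hp0]
    refine ⟨?_, List.nil_suffix⟩
    rcases mem_conf.1 q.2 with h | h | ⟨i, j, _, _, h⟩ <;> rw [h]
  have hn1 : ∀ q : (conf m L).points, q ≠ p0 → Near (q : Point) p1 := by
    intro q hq
    rw [hp1]
    rcases mem_conf.1 q.2 with h | h | ⟨i, j, _, _, h⟩
    · exact absurd (Subtype.ext h) (hp0 ▸ hq)
    · rw [h]; exact ⟨rfl, List.suffix_rfl⟩
    · rw [h]; exact ⟨rfl, ⟨List.replicate j (some 0) ++ [some (i : ℂ)], by simp [word]⟩⟩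
  -- lengths
  have hlen : ∀ (n : ℕ) (q : D.points), (q : Point).dirs.length = n →
      n ≤ ((e.symm q : (conf m L).points) : Point).dirs.length := by
    intro n
    induction n with
    | zero => intro q _; exact Nat.zero_le _
    | succ n ih =>
      rintro ⟨⟨Q, w⟩, hq⟩ hw
      rcases w with _ | ⟨c, w⟩
      · simp at hw
      · have hq' : (⟨Q, w⟩ : Point) ∈ D.points := D.closed Q c w hq
        have h2 := ih ⟨⟨Q, w⟩, hq'⟩ (by simpa using hw)
        have h3 : Near ((⟨Q, c :: w⟩ : Point)) ⟨Q, w⟩ := ⟨rfl, List.suffix_cons c w⟩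
        have h4 := (hnear (e.symm ⟨⟨Q, w⟩, hq'⟩) (e.symm ⟨⟨Q, c :: w⟩, hq⟩)).1
          (by rw [e.apply_symm_apply, e.apply_symm_apply]; exact h3)
        refine h2.trans_lt (lt_of_le_of_ne h4.2.length_le ?_)
        intro h5
        have h6 := h4.2.eq_of_length h5
        have h7 : e.symm ⟨⟨Q, w⟩, hq'⟩ = e.symm ⟨⟨Q, c :: w⟩, hq⟩ := by
          apply Subtype.ext
          have h8 : ∀ p q : Point, p.base = q.base → p.dirs = q.dirs → p = q := by
            rintro ⟨_, _⟩ ⟨_, _⟩ rfl rfl; rfl
          exact h8 _ _ h4.1.symm h6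
        have h8 := e.symm.injective h7
        simp at h8
  -- first point
  obtain ⟨P, hP⟩ : ∃ P, ((e p0 : D.points) : Point) = ⟨P, []⟩ := by
    rcases hE : ((e p0 : D.points) : Point) with ⟨P, w⟩
    rcases w with _ | ⟨c, w⟩
    · exact ⟨P, rfl⟩
    · exfalso
      have hmem : (⟨P, c :: w⟩ : Point) ∈ D.points := hE ▸ (e p0).2
      have hq' : (⟨P, w⟩ : Point) ∈ D.points := D.closed P c w hmem
      have h2 := (hnear p0 (e.symm ⟨⟨P, w⟩, hq'⟩)).2 (hn0 _)
      rw [e.apply_symm_apply, hE] at h2
      have h3 := h2.2.length_le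
      simp at h3
  have hbase : ∀ q ∈ D.points, q.base = P := by
    intro q hq
    have h2 := (hnear p0 (e.symm ⟨q, hq⟩)).2 (hn0 _)
    rw [e.apply_symm_apply, hP] at h2
    exact h2.1
  have hp01 : p1 ≠ p0 := by
    rw [hp0, hp1]
    simp
  -- second point
  obtain ⟨a, ha⟩ : ∃ a, ((e p1 : D.points) : Point) = ⟨P, [a]⟩ := by
    rcases hE : ((e p1 : D.points) : Point) with ⟨Q, w⟩
    have hQ : Q = P := by
      have := hbase _ (e p1).2
      rw [hE] at this
      exact this
    subst hQ
    rcases w with _ | ⟨c, w⟩
    · exfalso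
      apply hp01
      apply e.injective
      apply Subtype.ext
      rw [hE, hP]
    · rcases w with _ | ⟨c', w⟩
      · exact ⟨c, rfl⟩
      · exfalso
        have hmem : (⟨Q, c :: c' :: w⟩ : Point) ∈ D.points := hE ▸ (e p1).2
        have hq' : (⟨Q, c' :: w⟩ : Point) ∈ D.points := D.closed Q c _ hmem
        have hne : e.symm ⟨⟨Q, c' :: w⟩, hq'⟩ ≠ p0 := by
          intro h5
          have h6 := congrArg (fun x => ((e x : D.points) : Point)) h5
          simp only [e.apply_symm_apply, hP] at h6
          simp at h6
        have h2 := (hnear p1 (e.symm ⟨⟨Q, c' :: w⟩, hq'⟩)).2 (hn1 _ hne)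
        rw [e.apply_symm_apply, hE] at h2
        have h3 := h2.2.length_le
        simp at h3
  refine ⟨P, a, ?_, ?_, ?_⟩
  · rw [← hP, (he p0).1, hp0]; simp [conf]
  · rw [← ha, (he p1).1, hp1]; simp [conf]
  · intro p hp
    obtain ⟨q, hq⟩ : ∃ q, e q = ⟨p, hp⟩ := ⟨e.symm ⟨p, hp⟩, e.apply_symm_apply _⟩
    have hq' : e.symm ⟨p, hp⟩ = q := by rw [← hq, e.symm_apply_apply]
    by_cases hq0 : q = p0
    · left
      rw [hq0] at hq
      rw [← hP, hq]
    · by_cases hq1 : q = p1
      · right; left
        rw [hq1] at hq
        rw [← ha, hq]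
      · right; right
        have hl := hlen _ ⟨p, hp⟩ rfl
        rw [hq'] at hl
        have hmult := (he q).1
        rw [hq] at hmult
        rcases mem_conf.1 q.2 with h | h | ⟨i, j, hi, hj, h⟩
        · exact absurd (Subtype.ext h) (hp0 ▸ hq0)
        · exact absurd (Subtype.ext h) (hp1 ▸ hq1)
        · rw [h] at hl hmult
          simp only [word_length] at hl
          refine ⟨?_, ?_⟩
          · rw [hmult]; simp [conf, word_length]
          · have h2 := (hnear p1 q).2 (hn1 q hq0)
            rw [hq, ha] at h2
            obtain ⟨u, hu⟩ := h2.2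
            simp only at hu
            rcases List.eq_nil_or_concat u with rfl | ⟨w, b, rfl⟩
            · exfalso
              apply hq1
              apply e.injective
              apply Subtype.ext
              rw [hq, ha]
              rcases p with ⟨Q, v⟩
              have := hbase _ hp
              simp only at this hu ⊢
              rw [this, ← hu]
              rfl
            · refine ⟨w, b, ?_, ?_⟩
              · have h3 := congrArg List.length hu
                simp at h3
                omega
              · rcases p with ⟨Q, v⟩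
                have := hbase _ hp
                simp only at this hu ⊢
                rw [this, ← hu]
                simp

end Pool.Agent.K48I
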