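import Mathlib

/-!
# Weighted configurations of infinitely near points of the projective plane

Definitions only.
-/

set_option autoImplicit false

namespace Pool.Agent.K48I

open MvPolynomial

/-- The points of `ℙ²` over `ℂ`, given by their normalised homogeneous coordinates:
`affine a b` is `(1 : a : b)`, `infty b` is `(0 : 1 : b)` and `last` is `(0 : 0 : 1)`. -/
inductive PlanePoint
  | affine (a b : ℂ)
  | infty (b : ℂ)
  | last

/-- The local equation at a point of the plane of the curve given by a form in the homogeneous
coordinates `X 0, X 1, X 2`. It is a polynomial in local coordinates `x = X 0` and `y = X 1`,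
centred at the point. At `(1 : a : b)` one puts `(1, a + x, b + y)` in the form, at `(0 : 1 : b)`
one puts `(x, 1, b + y)` and at `(0 : 0 : 1)` one puts `(x, y, 1)`. -/
noncomputable def localEquation : PlanePoint →
    MvPolynomial (Fin 3) ℂ →ₐ[ℂ] MvPolynomial (Fin 2) ℂ
  | .affine a b => aeval ![1, C a + X 0, C b + X 1]
  | .infty b => aeval ![X 0, 1, C b + X 1]
  | .last => aeval ![X 0, X 1, 1]

/-- A tangent direction at a point with local coordinates `x, y`: `some c` is the direction of the
line `y = c x`, and `none` is the direction of the line `x = 0`. Directions are the same as points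
of the exceptional curve of the blow-up of the point. -/
abbrev Direction := Option ℂ

/-- The pull-back of functions to the blow-up of the point `x = y = 0`, in local coordinates
`x', y'` centred at the point of the exceptional curve which corresponds to a direction:
`(x, y) = (x', x' (y' + c))` for `some c`, and `(x, y) = (x' y', y')` for `none`. -/
noncomputable def pullBack : Direction → MvPolynomial (Fin 2) ℂ →ₐ[ℂ] MvPolynomial (Fin 2) ℂ
  | some c => aeval ![X 0, X 0 * (X 1 + C c)]
  | none => aeval ![X 0 * X 1, X 1]

/-- In the local coordinates used in `pullBack`, the exceptional curve is the axis on which the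
coordinate of this index vanishes. -/
def exceptional : Direction → Fin 2
  | some _ => 0
  | none => 1

/-- The direction of the axis on which the given coordinate vanishes. -/
def axis : Fin 2 → Direction
  | 0 => none
  | 1 => some 0

/-- A point equal or infinitely near to a point of the plane. It is given by a point `base` of the
plane and by a list of directions: a direction at `base`, a direction at the point of the blow-up
so obtained, and so on. The *last* direction is the head of the list. So `⟨P, []⟩` is the proper
point `P` and `⟨P, a :: w⟩` lies on the exceptional curve created at `⟨P, w⟩`. -/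
structure Point where
  base : PlanePoint
  dirs : List Direction

/-- Precedence: `q` is equal or infinitely near to `p`. -/
def Near (q p : Point) : Prop := q.base = p.base ∧ p.dirs <:+ q.dirs

/-- Proximity: `q` lies on the exceptional curve `E` created at `p`, or on a strict transform
of it. Here `a` is the direction at `p` of the point `q' = ⟨p.base, a :: p.dirs⟩` of `E` which is
equal to `q` or precedes it; near `q'` the curve `E` is an axis. The strict transform of an axis
passes through the point of the next exceptional curve which is the direction of that axis, and
there it is the same axis in the new coordinates. -/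
def Proximate (q p : Point) : Prop :=
  ∃ (a : Direction) (u : List Direction),
    q = ⟨p.base, u ++ a :: p.dirs⟩ ∧ ∀ b ∈ u, b = axis (exceptional a)

/-- A finite configuration of infinitely near points, closed under precedence, with a multiplicity
at each of its points (the values of `mult` at other points play no role). -/
structure Configuration where
  points : Finset Point
  closed : ∀ (P : PlanePoint) (a : Direction) (w : List Direction),
    ⟨P, a :: w⟩ ∈ points → ⟨P, w⟩ ∈ points
  mult : Point → ℕ

open Classical in
/-- A weighted configuration is consistent when the multiplicity of each point is at least the sum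
of the multiplicities of the points proximate to it. -/
def Consistent (D : Configuration) : Prop :=
  ∀ p ∈ D.points, ∑ q ∈ D.points.filter (fun q => Proximate q p), D.mult q ≤ D.mult p

/-- `d` is greater than the sum of the three largest multiplicities. -/
def ExceedsThreeLargest (D : Configuration) (d : ℕ) : Prop :=
  ∀ T ⊆ D.points, T.card ≤ 3 → ∑ p ∈ T, D.mult p < d

/-- Two weighted configurations with the same proximities, precedences and multiplicities. -/
def SameType (D D' : Configuration) : Prop :=
  ∃ e : D.points ≃ D'.points, ∀ p : D.points, D'.mult (e p) = D.mult p ∧
    ∀ q : D.points, (Near (e q) (e p) ↔ Near (q : Point) p) ∧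
      (Proximate (e q) (e p) ↔ Proximate (q : Point) p)

/-- The virtual transform of the curve `F` at the point `⟨P, w⟩`, when the multiplicities are
`r`. It is the local equation of `F` at `⟨P, []⟩ = P`. At `⟨P, a :: w⟩` it is the pull-back of the
virtual transform at `⟨P, w⟩`, divided by the power of exponent `r ⟨P, w⟩` of the equation of the
exceptional curve. (The division is without remainder if the virtual transform at `⟨P, w⟩` has
multiplicity at least `r ⟨P, w⟩` at that point.) -/
noncomputable def virtualTransform (r : Point → ℕ) (F : MvPolynomial (Fin 3) ℂ) (P : PlanePoint) :
    List Direction → MvPolynomial (Fin 2) ℂ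
  | [] => localEquation P F
  | a :: w => (pullBack a (virtualTransform r F P w)).divMonomial
      (Finsupp.single (exceptional a) (r ⟨P, w⟩))

/-- The polynomial `f` in `x, y` has multiplicity at least `n` at `x = y = 0`. -/
def MultAtLeast (n : ℕ) (f : MvPolynomial (Fin 2) ℂ) : Prop :=
  ∀ s : Fin 2 →₀ ℕ, s 0 + s 1 < n → f.coeff s = 0

theorem MultAtLeast.add {n : ℕ} {f g : MvPolynomial (Fin 2) ℂ} (hf : MultAtLeast n f)
    (hg : MultAtLeast n g) : MultAtLeast n (f + g) := fun s hs => by
  rw [coeff_add, hf s hs, hg s hs, add_zero]

theorem MultAtLeast.smul {n : ℕ} {f : MvPolynomial (Fin 2) ℂ} (z : ℂ) (hf : MultAtLeast n f) :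
    MultAtLeast n (z • f) := fun s hs => by
  rw [coeff_smul, hf s hs, smul_zero]

theorem virtualTransform_add (r : Point → ℕ) (F G : MvPolynomial (Fin 3) ℂ) (P : PlanePoint) :
    ∀ w : List Direction, virtualTransform r (F + G) P w =
      virtualTransform r F P w + virtualTransform r G P w
  | [] => map_add _ _ _
  | a :: w => by
    simp only [virtualTransform]
    rw [virtualTransform_add r F G P w, map_add]
    exact add_divMonomial _ _ _

theorem virtualTransform_smul (r : Point → ℕ) (z : ℂ) (F : MvPolynomial (Fin 3) ℂ)
    (P : PlanePoint) : ∀ w : List Direction, virtualTransform r (z • F) P w =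
      z • virtualTransform r F P w
  | [] => map_smul _ _ _
  | a :: w => by
    simp only [virtualTransform]
    rw [virtualTransform_smul r z F P w, map_smul]
    ext s
    simp [coeff_divMonomial, coeff_smul]

/-- The space `H⁰(ℙ², 𝓗(d))`: the forms of degree `d` whose virtual transform at each point of the
weighted configuration has at least the multiplicity of that point. -/
noncomputable def sections (D : Configuration) (d : ℕ) :
    Submodule ℂ (MvPolynomial (Fin 3) ℂ) where
  carrier := {F | F.IsHomogeneous d ∧
    ∀ p ∈ D.points, MultAtLeast (D.mult p) (virtualTransform D.mult F p.base p.dirs)}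
  add_mem' := fun {F G} hF hG => ⟨hF.1.add hG.1, fun p hp => by
    rw [virtualTransform_add]
    exact (hF.2 p hp).add (hG.2 p hp)⟩
  zero_mem' := ⟨isHomogeneous_zero _ _ _, fun p hp => by
    have h := virtualTransform_smul D.mult 0 0 p.base p.dirs
    rw [zero_smul, zero_smul] at h
    rw [h]
    intro s _
    exact coeff_zero s⟩
  smul_mem' := fun z F hF => ⟨(homogeneousSubmodule (Fin 3) ℂ d).smul_mem z hF.1, fun p hp => by
    rw [virtualTransform_smul]
    exact (hF.2 p hp).smul z⟩

/-- The expected dimension: the number of coefficients of a form of degree `d`, minus
`r (r + 1) / 2` for each point of multiplicity `r`, or zero when this is negative. -/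
def expectedDimension (D : Configuration) (d : ℕ) : ℤ :=
  max 0 (((d + 2).choose 2 : ℤ) - ∑ p ∈ D.points, ((D.mult p + 1).choose 2 : ℤ))

end Pool.Agent.K48I
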