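import Pool.Agent.K48I.Conf

/-!
# The dimension of the spaces of sections
-/

set_option autoImplicit false

namespace Pool.Agent.K48I

open MvPolynomial

/-- exponents of degree `n` in three variables -/
noncomputable def expo (n : ℕ) : Finset (Fin 3 →₀ ℕ) :=
  Finset.finsuppAntidiag Finset.univ n

theorem mem_expo {n : ℕ} {d : Fin 3 →₀ ℕ} : d ∈ expo n ↔ ∑ i, d i = n := by
  simp [expo, Finset.mem_finsuppAntidiag]

theorem card_expo (n : ℕ) : (expo n).card = (n + 2).choose 2 := by
  have := Finset.card_finsuppAntidiag_nat_eq_choose (s := (Finset.univ : Finset (Fin 3))) n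
  rw [expo, this]
  have h : (Finset.univ : Finset (Fin 3)).card + n - 1 = n + 2 := by simp; omega
  rw [h, ← Nat.choose_symm_of_eq_add (n := n + 2) (a := n) (b := 2) rfl]

theorem homogeneousSubmodule_eq (n : ℕ) :
    homogeneousSubmodule (Fin 3) ℂ n = restrictSupport ℂ (expo n : Set (Fin 3 →₀ ℕ)) := by
  ext p
  rw [mem_homogeneousSubmodule, mem_restrictSupport_iff]
  constructor
  · intro h d hd
    have := h.degree_eq_sum_deg_support (s := d) (by simpa using hd)
    rw [Finset.mem_coe, mem_expo]
    rw [this]
    exact (Finsupp.sum_fintype d (fun _ x => x) (by simp)).symm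
  · intro h d hd
    have := h (by simpa using mem_support_iff.mpr hd)
    rw [Finset.mem_coe, mem_expo] at this
    rw [← this, Finsupp.weight_apply, Finsupp.sum_fintype _ _ (by simp)]
    simp

theorem finrank_forms (n : ℕ) :
    Module.finrank ℂ (homogeneousSubmodule (Fin 3) ℂ n) = (n + 2).choose 2 := by
  rw [homogeneousSubmodule_eq, ← card_expo,
    Module.finrank_eq_card_basis (basisRestrictSupport ℂ (expo n : Set (Fin 3 →₀ ℕ)))]
  simp

instance finite_forms (n : ℕ) : Module.Finite ℂ (homogeneousSubmodule (Fin 3) ℂ n) := by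
  rw [homogeneousSubmodule_eq]
  exact Module.Finite.of_basis (basisRestrictSupport ℂ (expo n : Set (Fin 3 →₀ ℕ)))

instance finite_sections (D : Configuration) (d : ℕ) : Module.Finite ℂ (sections D d) := by
  have hle : sections D d ≤ homogeneousSubmodule (Fin 3) ℂ d := fun F hF => hF.1
  exact Module.Finite.of_injective (Submodule.inclusion hle) (Submodule.inclusion_injective hle)

/-- The forms divisible by the `k`-th power of the tangent line pass through the configuration. -/
theorem le_finrank {m k s L : ℕ} (hk : m ≤ k) (hL : L + 2 * m ≤ 2 * k) {D : Configuration}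
    (h : SameType (conf m L) D) :
    (s + 2).choose 2 ≤ Module.finrank ℂ (sections D (k + s)) := by
  obtain ⟨P, a, h0, h1, hp⟩ := shape D h
  obtain ⟨l, hl1, hl0, hlm, hl⟩ := exists_line P a
  have hmem : ∀ G : MvPolynomial (Fin 3) ℂ, G.IsHomogeneous s → l ^ k * G ∈ sections D (k + s) := by
    intro G hG
    refine ⟨by simpa using (hl1.pow k).mul hG, fun p hpD => ?_⟩
    rcases hp p hpD with rfl | rfl | ⟨h2, w, b, hw, rfl⟩
    · rw [h0]
      simp only [virtualTransform]
      rw [map_mul, map_pow]
      have := (hlm.pow k).of_mul_left (localEquation P G)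
      rw [mul_one] at this
      exact this.mono hk
    · rw [h1]
      simp only [virtualTransform]
      rw [map_mul, map_mul, map_pow, map_pow, hl, h0]
      have h3 : (X 0 * X 1 : MvPolynomial (Fin 2) ℂ) ^ k * pullBack a (localEquation P G) =
          X (exceptional a) ^ (m + (k - m)) *
            ((if exceptional a = 0 then X 1 else X 0) ^ k * pullBack a (localEquation P G)) := by
        have hk' : m + (k - m) = k := by omega
        rw [hk']
        rcases a with _ | c
        · simp [exceptional]; ring
        · simp [exceptional]; ring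
      rw [h3, divMonomial_pow]
      have h4 : MultAtLeast 1 (if exceptional a = 0 then X 1 else X 0 :
          MvPolynomial (Fin 2) ℂ) := by
        split_ifs
        · exact multAtLeast_X 1
        · exact multAtLeast_X 0
      have h5 := ((h4.pow k).of_mul_left (pullBack a (localEquation P G)))
      rw [mul_one] at h5
      rw [mul_comm]
      exact (h5.mono hk).of_mul_left _
    · rw [h2]
      have hsuf : ∀ v : List Direction, v <:+ w → (⟨P, v ++ [b, a]⟩ : Point) ∈ D.points := by
        intro v hv
        obtain ⟨u, rfl⟩ := hv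
        clear h2 hw
        induction u with
        | nil => exact hpD
        | cons c u ih => exact ih (D.closed P c _ hpD)
      have hone : ∀ v : List Direction, v.length < w.length → v <:+ w →
          D.mult ⟨P, v ++ [b, a]⟩ = 1 := by
        intro v _ hv
        rcases hp _ (hsuf v hv) with h6 | h6 | ⟨h6, _⟩
        · have := congrArg (fun p : Point => p.dirs.length) h6
          simp at this
        · have := congrArg (fun p : Point => p.dirs.length) h6
          simp at this
        · exact h6
      obtain ⟨i, g, hg⟩ := virtual_form (r := D.mult) (P := P) (a := a) (m := m) (k := k)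
        (L := L) (l := l) G hl h0 h1 hL b w hw.le hone
      simp only at hg ⊢
      rw [hg]
      have h7 := ((multAtLeast_X i).pow (2 * k - 2 * m - w.length)).of_mul_left g
      exact h7.mono (by omega)
  have hle : homogeneousSubmodule (Fin 3) ℂ s ≤
      (sections D (k + s)).comap (LinearMap.mulLeft ℂ (l ^ k)) := fun G hG => hmem G hG
  rw [← finrank_forms]
  refine LinearMap.finrank_le_finrank_of_injective
    (f := ((LinearMap.mulLeft ℂ (l ^ k)).restrict
      (p := homogeneousSubmodule (Fin 3) ℂ s) (q := sections D (k + s)) hle)) ?_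
  intro G G' hGG
  apply Subtype.ext
  have h8 := congrArg Subtype.val hGG
  simp only [LinearMap.restrict_apply, LinearMap.mulLeft_apply] at h8
  exact mul_left_cancel₀ (pow_ne_zero k hl0) h8

/-- the defect is unbounded, even if the expected dimension is positive -/
theorem unbounded (B : ℕ) : ∃ (D : Configuration) (d : ℕ),
    Consistent D ∧ ExceedsThreeLargest D d ∧ ∀ D' : Configuration, SameType D D' →
      0 < expectedDimension D' d ∧
        expectedDimension D' d + B < (Module.finrank ℂ (sections D' d) : ℤ) := by
  refine ⟨conf (2 * (B + 9)) (2 * (B + 9) + 4), (3 * (B + 9) + 2) + (B + 9),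
    consistent_conf _ _, exceeds_conf _ _ _ (by omega) (by omega), fun D' hD' => ?_⟩
  have hvd : expectedDimension D' ((3 * (B + 9) + 2) + (B + 9)) = 4 * (B + 9) + 6 := by
    rw [hD'.expectedDimension_eq, expectedDimension_conf]
    have e1 : (((3 * (B + 9) + 2) + (B + 9) + 2).choose 2 : ℕ) =
        (2 * (B + 9) + 2) * (4 * (B + 9) + 3) := by
      rw [Nat.choose_two_right]
      have : (3 * (B + 9) + 2) + (B + 9) + 2 = 2 * (2 * (B + 9) + 2) := by ring
      rw [this]
      have h2 : 2 * (2 * (B + 9) + 2) - 1 = 4 * (B + 9) + 3 := by omega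
      rw [h2, mul_assoc, Nat.mul_div_cancel_left _ (by norm_num)]
    have e2 : ((2 * (B + 9) + 1).choose 2 : ℕ) = (B + 9) * (2 * (B + 9) + 1) := by
      rw [Nat.choose_two_right]
      have h2 : 2 * (B + 9) + 1 - 1 = 2 * (B + 9) := by omega
      rw [h2, show (2 * (B + 9) + 1) * (2 * (B + 9)) = 2 * ((B + 9) * (2 * (B + 9) + 1)) by ring,
        Nat.mul_div_cancel_left _ (by norm_num)]
    rw [e1, e2, max_eq_right]
    · push_cast
      ring
    · push_cast
      nlinarith
  rw [hvd]
  refine ⟨by positivity, ?_⟩
  have h1 := le_finrank (m := 2 * (B + 9)) (k := 3 * (B + 9) + 2) (s := B + 9)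
    (L := 2 * (B + 9) + 4) (by omega) (by omega) hD'
  have h2 : 4 * (B + 9) + 6 + B < ((B + 9) + 2).choose 2 := by
    rw [Nat.choose_two_right, Nat.lt_iff_add_one_le, Nat.le_div_iff_mul_le (by norm_num)]
    have h3 : B + 9 + 2 - 1 = B + 10 := by omega
    rw [h3]
    nlinarith
  exact_mod_cast h2.trans_le h1

end Pool.Agent.K48I
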