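import Pool.Agent.K48I.Defs

/-!
# Virtual transforms of curves which contain a line many times
-/

set_option autoImplicit false

namespace Pool.Agent.K48I

open MvPolynomial

theorem MultAtLeast.zero (f : MvPolynomial (Fin 2) ℂ) : MultAtLeast 0 f := fun _ hs =>
  absurd hs (Nat.not_lt_zero _)

theorem MultAtLeast.mono {a b : ℕ} {f : MvPolynomial (Fin 2) ℂ} (h : a ≤ b)
    (hf : MultAtLeast b f) : MultAtLeast a f := fun s hs => hf s (hs.trans_le h)

theorem MultAtLeast.mul {a b : ℕ} {f g : MvPolynomial (Fin 2) ℂ} (hf : MultAtLeast a f)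
    (hg : MultAtLeast b g) : MultAtLeast (a + b) (f * g) := by
  classical
  intro s hs
  rw [coeff_mul]
  refine Finset.sum_eq_zero fun x hx => ?_
  rw [Finset.HasAntidiagonal.mem_antidiagonal] at hx
  have h0 : x.1 0 + x.2 0 = s 0 := by rw [← hx]; rfl
  have h1 : x.1 1 + x.2 1 = s 1 := by rw [← hx]; rfl
  by_cases h : x.1 0 + x.1 1 < a
  · rw [hf _ h, zero_mul]
  · rw [hg x.2 (by omega), mul_zero]

theorem MultAtLeast.pow {a : ℕ} {f : MvPolynomial (Fin 2) ℂ} (hf : MultAtLeast a f) (n : ℕ) :
    MultAtLeast (n * a) (f ^ n) := by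
  induction n with
  | zero => rw [zero_mul]; exact MultAtLeast.zero _
  | succ n ih => rw [pow_succ, Nat.succ_mul]; exact ih.mul hf

theorem MultAtLeast.of_mul_left {a : ℕ} {f : MvPolynomial (Fin 2) ℂ} (hf : MultAtLeast a f)
    (g : MvPolynomial (Fin 2) ℂ) : MultAtLeast a (f * g) := hf.mul (MultAtLeast.zero g)

theorem multAtLeast_X (i : Fin 2) : MultAtLeast 1 (X i : MvPolynomial (Fin 2) ℂ) := by
  classical
  intro s hs
  rw [coeff_X]
  split_ifs with h
  · subst h
    fin_cases i <;> simp at hs
  · rfl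

/-- The pull-back of each coordinate is divisible by the equation of the exceptional curve. -/
theorem pullBack_X (a : Direction) (i : Fin 2) :
    ∃ μ, pullBack a (X i) = X (exceptional a) * μ := by
  rcases a with _ | c
  · fin_cases i
    · exact ⟨X 0, by simp [pullBack, exceptional, mul_comm]⟩
    · exact ⟨1, by simp [pullBack, exceptional]⟩
  · fin_cases i
    · exact ⟨1, by simp [pullBack, exceptional]⟩
    · exact ⟨X 1 + C c, by simp [pullBack, exceptional]⟩

theorem divMonomial_pow (i : Fin 2) (n j : ℕ) (f : MvPolynomial (Fin 2) ℂ) :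
    (X i ^ (n + j) * f).divMonomial (Finsupp.single i n) = X i ^ j * f := by
  have h : X i ^ (n + j) * f = monomial (Finsupp.single i n) 1 * (X i ^ j * f) := by
    rw [pow_add, ← X_pow_eq_monomial, mul_assoc]
  rw [h]
  exact divMonomial_monomial_mul _ _

/-- The line through a point in a given direction. -/
theorem exists_line (P : PlanePoint) (a : Direction) :
    ∃ l : MvPolynomial (Fin 3) ℂ, l.IsHomogeneous 1 ∧ l ≠ 0 ∧ MultAtLeast 1 (localEquation P l) ∧
      pullBack a (localEquation P l) = X 0 * X 1 := by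
  have hX : ∀ i : Fin 3, (X i : MvPolynomial (Fin 3) ℂ).IsHomogeneous 1 := isHomogeneous_X ℂ
  have hCX : ∀ (c : ℂ) (i : Fin 3), (C c * X i : MvPolynomial (Fin 3) ℂ).IsHomogeneous 1 :=
    fun c i => by simpa using (isHomogeneous_C (Fin 3) c).mul (hX i)
  have hne : ∀ (l : MvPolynomial (Fin 3) ℂ) (v : Fin 3 → ℂ), eval v l ≠ 0 → l ≠ 0 := by
    rintro l v hv rfl
    exact hv (map_zero _)
  have hm1 : ∀ c : ℂ, MultAtLeast 1 (X 1 - C c * X 0 : MvPolynomial (Fin 2) ℂ) := by
    intro c
    have h1 : (X 1 - C c * X 0 : MvPolynomial (Fin 2) ℂ) = X 1 + (-c) • X 0 := by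
      rw [smul_eq_C_mul, map_neg]; ring
    rw [h1]
    exact (multAtLeast_X 1).add ((multAtLeast_X 0).smul _)
  rcases P with ⟨p, q⟩ | ⟨q⟩ | _ <;> rcases a with _ | c
  · refine ⟨X 1 - C p * X 0, (hX 1).sub (hCX p 0), hne _ ![0, 1, 0] (by simp), ?_, ?_⟩
    · have : localEquation (.affine p q) (X 1 - C p * X 0) = X 0 := by
        simp [localEquation]
      rw [this]; exact multAtLeast_X 0
    · simp [localEquation, pullBack]
  · have h1 : localEquation (.affine p q) (X 2 - C q * X 0 - C c * (X 1 - C p * X 0)) =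
        X 1 - C c * X 0 := by
      simp only [localEquation, map_sub, map_mul, aeval_X, algHom_C, algebraMap_eq]
      simp
    refine ⟨X 2 - C q * X 0 - C c * (X 1 - C p * X 0), ?_, hne _ ![0, 0, 1] (by simp), ?_, ?_⟩
    · have h2 := ((isHomogeneous_C (Fin 3) c).mul ((hX 1).sub (hCX p 0)))
      rw [zero_add] at h2
      exact ((hX 2).sub (hCX q 0)).sub h2
    · rw [h1]; exact hm1 c
    · rw [h1]; simp [pullBack]; ring
  · refine ⟨X 0, hX 0, hne _ ![1, 0, 0] (by simp), ?_, ?_⟩
    · have : localEquation (.infty q) (X 0) = X 0 := by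
        simp [localEquation]
      rw [this]; exact multAtLeast_X 0
    · simp [localEquation, pullBack]
  · have h1 : localEquation (.infty q) (X 2 - C q * X 1 - C c * X 0) =
        X 1 - C c * X 0 := by
      simp only [localEquation, map_sub, map_mul, aeval_X, algHom_C, algebraMap_eq]
      simp
    refine ⟨X 2 - C q * X 1 - C c * X 0, ((hX 2).sub (hCX q 1)).sub (hCX c 0),
      hne _ ![0, 0, 1] (by simp), ?_, ?_⟩
    · rw [h1]; exact hm1 c
    · rw [h1]; simp [pullBack]; ring
  · refine ⟨X 0, hX 0, hne _ ![1, 0, 0] (by simp), ?_, ?_⟩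
    · have : localEquation .last (X 0) = X 0 := by
        simp [localEquation]
      rw [this]; exact multAtLeast_X 0
    · simp [localEquation, pullBack]
  · have h1 : localEquation .last (X 1 - C c * X 0) = X 1 - C c * X 0 := by
      simp only [localEquation, map_sub, map_mul, aeval_X, algHom_C, algebraMap_eq]
      simp
    refine ⟨X 1 - C c * X 0, (hX 1).sub (hCX c 0), hne _ ![0, 1, 0] (by simp), ?_, ?_⟩
    · rw [h1]; exact hm1 c
    · rw [h1]; simp [pullBack]; ring

/-- The virtual transforms of `l ^ k * G` over the tangent direction `a` of the line `l`. -/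
theorem virtual_form {r : Point → ℕ} {P : PlanePoint} {a : Direction} {m k L : ℕ}
    {l : MvPolynomial (Fin 3) ℂ} (G : MvPolynomial (Fin 3) ℂ)
    (hl : pullBack a (localEquation P l) = X 0 * X 1)
    (h0 : r ⟨P, []⟩ = m) (h1 : r ⟨P, [a]⟩ = m) (hL : L + 2 * m ≤ 2 * k) (b : Direction) :
    ∀ w : List Direction, w.length ≤ L →
      (∀ v : List Direction, v.length < w.length → v <:+ w → r ⟨P, v ++ [b, a]⟩ = 1) →
      ∃ (i : Fin 2) (g : MvPolynomial (Fin 2) ℂ),
        virtualTransform r (l ^ k * G) P (w ++ [b, a]) = X i ^ (2 * k - 2 * m - w.length) * g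
  | [], _, _ => by
    obtain ⟨μ0, hμ0⟩ := pullBack_X b 0
    obtain ⟨μ1, hμ1⟩ := pullBack_X b 1
    have hv1 : ∃ g, virtualTransform r (l ^ k * G) P [a] =
        X (exceptional a) ^ (k - m) * (X 0 ^ 0 * g) ∧
        ∃ g', g = (if exceptional a = 0 then X 1 else X 0) ^ k * g' := by
      refine ⟨(if exceptional a = 0 then X 1 else X 0) ^ k * pullBack a (localEquation P G), ?_,
        _, rfl⟩
      simp only [virtualTransform]
      rw [h0, map_mul, map_mul, map_pow, map_pow, hl]
      have hk : k = m + (k - m) := by omega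
      have h2 : (X 0 * X 1 : MvPolynomial (Fin 2) ℂ) ^ k * pullBack a (localEquation P G) =
          X (exceptional a) ^ (m + (k - m)) * (X 0 ^ 0 *
            ((if exceptional a = 0 then X 1 else X 0) ^ k * pullBack a (localEquation P G))) := by
        rw [← hk]
        rcases a with _ | c
        · simp [exceptional]; ring
        · simp [exceptional]; ring
      rw [h2, divMonomial_pow]
    obtain ⟨g, hg, g', rfl⟩ := hv1
    have hpb : ∀ i : Fin 2, ∃ μ, pullBack b (X i) = X (exceptional b) * μ := pullBack_X b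
    obtain ⟨μ, hμ⟩ := hpb (exceptional a)
    obtain ⟨ν, hν⟩ : ∃ ν, pullBack b (if exceptional a = 0 then X 1 else X 0) =
        X (exceptional b) * ν := by
      split_ifs
      · exact hpb 1
      · exact hpb 0
    refine ⟨exceptional b, μ ^ (k - m) * (ν ^ k * pullBack b g'), ?_⟩
    simp only [List.nil_append, virtualTransform] at hg ⊢
    rw [hg, h1]
    simp only [map_mul, map_pow, hμ, hν]
    have h3 : (X (exceptional b) * μ) ^ (k - m) * ((pullBack b (X 0)) ^ 0 *
        ((X (exceptional b) * ν) ^ k * pullBack b g')) =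
        X (exceptional b) ^ (m + (2 * k - 2 * m - 0)) * (μ ^ (k - m) * (ν ^ k * pullBack b g')) := by
      have h4 : m + (2 * k - 2 * m - 0) = (k - m) + k := by omega
      rw [h4, pow_add, mul_pow, mul_pow]
      ring
    rw [h3, divMonomial_pow]
    rfl
  | c :: w, hw, hr => by
    rw [List.length_cons] at hw
    obtain ⟨i, g, hg⟩ := virtual_form (r := r) (m := m) (k := k) (L := L) G hl h0 h1 hL b w
      (by omega) (fun v hv hvw => hr v (by rw [List.length_cons]; omega)
        (hvw.trans (List.suffix_cons c w)))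
    obtain ⟨μ, hμ⟩ := pullBack_X c i
    refine ⟨exceptional c, μ ^ (2 * k - 2 * m - w.length) * pullBack c g, ?_⟩
    rw [List.cons_append]
    simp only [virtualTransform]
    rw [hg, hr w (by rw [List.length_cons]; omega) (List.suffix_cons c w), map_mul, map_pow, hμ,
      mul_pow, List.length_cons, mul_assoc]
    have h4 : 2 * k - 2 * m - w.length = 1 + (2 * k - 2 * m - (w.length + 1)) := by omega
    conv_lhs => rw [h4]
    rw [divMonomial_pow, ← h4]

end Pool.Agent.K48I
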